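import Pool.Agent.Helper19.HV.StC

/-!
# Project HV (MP_bae8ce_ag), module MWC: `m = w` after `c`
-/

set_option autoImplicit false

open scoped TensorProduct

namespace Pool.Agent.Helper19.HV

noncomputable section

open PL

private theorem m30_isMul {F : Type} [Field F] {c : ∀ k j : ℕ, Γ F k j →ₗ[ℚ] Γ (RatFunc F) k j}
    (hc : IsCst c)
    (w : F → ∀ k j : ℕ, Γ (RatFunc F) k j →ₗ[ℚ] Γ (RatFunc F) k (j + 1)) (hw : ∀ a, IsW a (w a)) :
    IsMul (F := F) fun a k j => w a k j ∘ₗ c k j := by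
  constructor
  · intro a j u
    exact (congrArg (w a 1 j) (hc.one j u)).trans ((hw a).one j _)
  · intro a q j x u
    exact (congrArg (w a (q + 2) j) (hc.two q j x u)).trans ((hw a).two q j _ _)

private theorem m30_eq (h1 : sGNR) {F : Type} [Field F]
    {c : ∀ k j : ℕ, Γ F k j →ₗ[ℚ] Γ (RatFunc F) k j} (hc : IsCst c)
    {m : ∀ (_ : F) (k j : ℕ), Γ F k j →ₗ[ℚ] Γ (RatFunc F) k (j + 1)} (hm : IsMul (F := F) m)
    {a : F} {w : ∀ k j : ℕ, Γ (RatFunc F) k j →ₗ[ℚ] Γ (RatFunc F) k (j + 1)} (hw : IsW a w) :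
    ∀ k j, m a k j = w k j ∘ₗ c k j
  | 0, j => by
    apply LinearMap.ext
    intro y
    exact Subsingleton.elim (α := PUnit) _ _
  | 1, j => by
    apply h1 F (Γ (RatFunc F) 1 (j + 1)) (j + 1) (m a 1 j) (w 1 j ∘ₗ c 1 j)
    intro u
    exact (hm.one a j u).trans ((congrArg (w 1 j) (hc.one j u)).trans (hw.one j _)).symm
  | (q + 2), j => by
    apply gext
    intro x l
    have h := h1 F (Γ (RatFunc F) (q + 2) (j + 1)) j (m a (q + 2) j ∘ₗ tmL q j x)
      ((w (q + 2) j ∘ₗ c (q + 2) j) ∘ₗ tmL q j x) (by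
        intro u
        exact (hm.two a q j x u).trans
          ((congrArg (w (q + 2) j) (hc.two q j x u)).trans (hw.two q j _ _)).symm)
    exact LinearMap.congr_fun h l

theorem mMWC : sGNR → sWED → sMWC := by
  intro h1 h2 F _ c hc
  constructor
  · choose w hw using fun a : F => h2 F a
    exact ⟨_, m30_isMul hc w hw⟩
  · intro m hm a
    obtain ⟨w, hw⟩ := h2 F a
    exact ⟨w, hw, fun k j y => by rw [m30_eq h1 hc hm hw k j]; rfl⟩

end

end Pool.Agent.Helper19.HV
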